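import Pool.Agent.V8H38.HF.Final

/-!
# A hereditary first-order model checking problem which is `coNP`-intermediate

`P ≠ NP` holds if and only if there is a first-order sentence `φ` over a finite relational
signature (with symbols of arity at most three) such that the problem `HER(φ)` is
`coNP`-intermediate: it is in `coNP`, but neither in `P` nor `coNP`-complete with respect to
polynomial-time many-one reductions.

The direction from left to right is the answer to the question. The proof is a delayed
diagonalization in the style of Ladner which is carried out inside the first-order sentence. The
sentence is the negation of a sentence `ψ` which says: the structure consists of nodes, which form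
a chain `0, ..., n`, and of tokens, at most one for each node; the chain carries the computation of
a fixed counter machine with `n` steps; the flag of the machine is up at time `n`; and the set of
the nodes with a token satisfies the clauses which are given by two relations. A substructure
which satisfies `ψ` contains all nodes `0, ..., n` of a chain, so that its size is between `n + 1`
and `2 n + 2`. The machine searches for errors of the polynomial-time functions, first as decision
procedures for the problem (flag up) and then as reductions to it (flag down), alternately. While
the flag is down the substructures which satisfy `ψ` are smaller than the starting point of the
search, and the problem can be decided in polynomial time.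
-/

namespace Pool.Agent.Results.MP_a28c52_lc.IntermediateHereditary

open Pool.Agent.NPC Pool.Agent.H593R3.FBC Pool.Agent.V8H38.HF

theorem result :
    (∃ L : Set (List Bool), InNP L ∧ ¬ InP L) ↔
      ∃ (τ : List ℕ) (φ : FO 0), (∀ a ∈ τ, 1 ≤ a ∧ a ≤ 3) ∧ φ.Over τ ∧
        CoNPIntermediate (HER τ φ) :=
  ⟨exists_intermediate, fun ⟨_, _, _, _, h⟩ => pneNP_of h⟩

end Pool.Agent.Results.MP_a28c52_lc.IntermediateHereditary
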